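import Pool.Agent.Helper5.KM.Basic

/-! # KM: part LLN -/

set_option autoImplicit false

open MeasureTheory Filter Topology

namespace Pool.Agent.Helper46.KM
open Pool.Agent.Helper5.KM

/-- averages along the squares control all averages -/
lemma avg_tendsto (a : ℕ → ℂ) (B : ℝ) (ha : ∀ n, ‖a n‖ ≤ B)
    (h : Tendsto (fun k : ℕ => ‖∑ n ∈ Finset.range (k ^ 2), a n‖ / (k : ℝ) ^ 2) atTop (𝓝 0)) :
    Tendsto (fun N : ℕ => (∑ n ∈ Finset.range N, a n) / (N : ℂ)) atTop (𝓝 0) := by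
  have hB : 0 ≤ B := (norm_nonneg _).trans (ha 0)
  have hs : Tendsto (fun N : ℕ => Nat.sqrt N) atTop atTop := by
    refine tendsto_atTop_atTop.2 fun b => ⟨b ^ 2, fun n hn => ?_⟩
    rw [Nat.le_sqrt']
    exact hn
  have h1 : Tendsto (fun N : ℕ => ‖∑ n ∈ Finset.range ((Nat.sqrt N) ^ 2), a n‖ /
      ((Nat.sqrt N : ℕ) : ℝ) ^ 2 + B * (2 * (1 / ((Nat.sqrt N : ℕ) : ℝ)))) atTop
      (𝓝 (0 + B * (2 * 0))) := by
    refine (h.comp hs).add (Tendsto.const_mul _ (Tendsto.const_mul _ ?_))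
    exact tendsto_one_div_atTop_nhds_zero_nat.comp hs
  simp only [mul_zero, add_zero] at h1
  refine squeeze_zero_norm' ?_ h1
  filter_upwards [eventually_ge_atTop 1] with N hN
  set k := Nat.sqrt N with hk
  have hk1 : 1 ≤ k := by rw [hk, Nat.le_sqrt']; simpa using hN
  have hk2 : k ^ 2 ≤ N := by rw [hk]; exact Nat.sqrt_le' N
  have hk3 : N ≤ k ^ 2 + 2 * k := by
    have := Nat.sqrt_le_add N
    rw [← hk] at this
    nlinarith
  have hk0 : (0 : ℝ) < k := by exact_mod_cast hk1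
  have hN0 : (0 : ℝ) < N := by exact_mod_cast hN
  have hk2' : (k : ℝ) ^ 2 ≤ N := by exact_mod_cast hk2
  have hk3' : (N : ℝ) ≤ (k : ℝ) ^ 2 + 2 * k := by exact_mod_cast hk3
  have e1 : ∑ n ∈ Finset.range N, a n =
      ∑ n ∈ Finset.range (k ^ 2), a n + ∑ n ∈ Finset.Ico (k ^ 2) N, a n :=
    (Finset.sum_range_add_sum_Ico _ hk2).symm
  have e2 : ‖∑ n ∈ Finset.Ico (k ^ 2) N, a n‖ ≤ B * (2 * k) := by
    refine (norm_sum_le _ _).trans ((Finset.sum_le_sum fun n _ => ha n).trans ?_)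
    rw [Finset.sum_const, Nat.card_Ico, nsmul_eq_mul, Nat.cast_sub hk2]
    push_cast
    nlinarith
  rw [norm_div, e1]
  have e3 : ‖(N : ℂ)‖ = N := by simp
  rw [e3]
  calc ‖∑ n ∈ Finset.range (k ^ 2), a n + ∑ n ∈ Finset.Ico (k ^ 2) N, a n‖ / N
      ≤ (‖∑ n ∈ Finset.range (k ^ 2), a n‖ + B * (2 * k)) / N := by
        apply div_le_div_of_nonneg_right _ hN0.le
        exact (norm_add_le _ _).trans (by linarith)
    _ ≤ (‖∑ n ∈ Finset.range (k ^ 2), a n‖ + B * (2 * k)) / (k : ℝ) ^ 2 := by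
        apply div_le_div_of_nonneg_left (by positivity) (by positivity) hk2'
    _ = _ := by
        field_simp

variable {b : ℕ}

lemma ae_norm_condExp_le {μ : Measure (Sq b)} [IsProbabilityMeasure μ] (Φ : Sq b → ℂ)
    (hΦ : Integrable Φ μ) (hΦ1 : ∀ y, ‖Φ y‖ ≤ 1) :
    ∀ᵐ y ∂μ, ‖(μ[Φ | past b 0]) y‖ ≤ 1 := by
  have h1 := norm_condExp_le (μ := μ) (m := past b 0) Φ
  have h2 : μ[(‖Φ ·‖) | past b 0] ≤ᵐ[μ] μ[fun _ => (1 : ℝ) | past b 0] :=
    condExp_mono hΦ.norm (integrable_const _) (Eventually.of_forall hΦ1)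
  rw [condExp_const (past_le 0)] at h2
  filter_upwards [h1, h2] with y hy1 hy2
  exact hy1.trans hy2

/-- orthogonality -/
lemma ortho {μ : Measure (Sq b)} [IsProbabilityMeasure μ]
    (h : MeasurePreserving (sh 1) μ μ) (Φ : Sq b → ℂ) (hΦ : Measurable Φ) (hΦ1 : ∀ y, ‖Φ y‖ ≤ 1)
    (n : ℤ) (g : Sq b → ℂ) (hg : StronglyMeasurable[past b n] g) (K : ℝ)
    (hgK : ∀ᵐ y ∂μ, ‖g y‖ ≤ K) :
    ∫ y, g y * (Φ (sh n y) - (μ[Φ | past b 0]) (sh n y)) ∂μ = 0 := by
  have hΦi : Integrable Φ μ := Integrable.of_bound hΦ.aestronglyMeasurable 1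
    (Eventually.of_forall hΦ1)
  set G : Sq b → ℂ := fun y => g (sh (-n) y) with hG
  have hGm : StronglyMeasurable[past b 0] G := by
    have h1 := measurable_sh_past (b := b) (-n) n
    rw [add_neg_cancel] at h1
    exact hg.comp_measurable h1
  have hGK : ∀ᵐ y ∂μ, ‖G y‖ ≤ K := (mp_sh h (-n)).quasiMeasurePreserving.ae hgK
  have e1 : ∀ y, g y * (Φ (sh n y) - (μ[Φ | past b 0]) (sh n y)) =
      (fun y => G y * (Φ y - (μ[Φ | past b 0]) y)) (sh n y) := by
    intro y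
    simp only [hG, sh_sh, neg_add_cancel, sh_zero]
  simp_rw [e1]
  refine ((mp_sh h n).integral_comp (shEquiv (b := b) n).measurableEmbedding
    (fun y => G y * (Φ y - (μ[Φ | past b 0]) y))).trans ?_
  have i1 : Integrable (fun y => G y * Φ y) μ :=
    hΦi.bdd_mul (hGm.mono (past_le 0)).aestronglyMeasurable hGK
  have i2 : Integrable (fun y => G y * (μ[Φ | past b 0]) y) μ :=
    integrable_condExp.bdd_mul (hGm.mono (past_le 0)).aestronglyMeasurable hGK
  have e2 : ∫ y, G y * (Φ y - (μ[Φ | past b 0]) y) ∂μ =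
      ∫ y, G y * Φ y ∂μ - ∫ y, G y * (μ[Φ | past b 0]) y ∂μ := by
    rw [← integral_sub i1 i2]
    congr 1
    funext y
    ring
  rw [e2]
  have e3 := condExp_bilin_of_stronglyMeasurable_left (μ := μ) (ContinuousLinearMap.mul ℝ ℂ) hGm
    (g := Φ) (by simpa using i1) hΦi
  simp only [ContinuousLinearMap.mul_apply'] at e3
  rw [← integral_congr_ae e3, integral_condExp (past_le 0), sub_self]

/-- the summands -/
noncomputable def Hn (μ : Measure (Sq b)) (Φ : Sq b → ℂ) (c : ℕ → Sq b → ℂ) (n : ℕ) (y : Sq b) : ℂ :=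
  c n y * (Φ (sh n y) - (μ[Φ | past b 0]) (sh n y))

lemma Hn_meas {μ : Measure (Sq b)} (Φ : Sq b → ℂ) (hΦ : Measurable Φ)
    (c : ℕ → Sq b → ℂ) (hc : ∀ n : ℕ, StronglyMeasurable[past b n] (c n)) (n : ℕ) :
    Measurable (Hn μ Φ c n) := by
  have h1 : Measurable (c n) := ((hc n).mono (past_le n)).measurable
  have h2 : Measurable (μ[Φ | past b 0]) :=
    (stronglyMeasurable_condExp.mono (past_le 0)).measurable
  exact h1.mul ((hΦ.comp (measurable_sh n)).sub (h2.comp (measurable_sh n)))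

lemma Hn_bound {μ : Measure (Sq b)} [IsProbabilityMeasure μ]
    (h : MeasurePreserving (sh 1) μ μ) (Φ : Sq b → ℂ) (hΦ : Measurable Φ) (hΦ1 : ∀ y, ‖Φ y‖ ≤ 1)
    (c : ℕ → Sq b → ℂ) (hc1 : ∀ n y, ‖c n y‖ ≤ 1) :
    ∀ᵐ y ∂μ, ∀ n : ℕ, ‖(μ[Φ | past b 0]) (sh n y)‖ ≤ 1 ∧ ‖Hn μ Φ c n y‖ ≤ 2 := by
  have hΦi : Integrable Φ μ := Integrable.of_bound hΦ.aestronglyMeasurable 1
    (Eventually.of_forall hΦ1)
  rw [ae_all_iff]
  intro n
  have h1 := (mp_sh h n).quasiMeasurePreserving.ae (ae_norm_condExp_le Φ hΦi hΦ1)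
  filter_upwards [h1] with y hy
  refine ⟨hy, ?_⟩
  unfold Hn
  rw [norm_mul]
  calc ‖c n y‖ * ‖Φ (sh n y) - (μ[Φ | past b 0]) (sh n y)‖ ≤ 1 * (1 + 1) := by
        apply mul_le_mul (hc1 n y) _ (norm_nonneg _) zero_le_one
        exact (norm_sub_le _ _).trans (add_le_add (hΦ1 _) hy)
    _ = 2 := by norm_num

lemma corr {μ : Measure (Sq b)} [IsProbabilityMeasure μ] (h : MeasurePreserving (sh 1) μ μ)
    (Φ : Sq b → ℂ) (hΦ : Measurable Φ) (hΦ1 : ∀ y, ‖Φ y‖ ≤ 1) (C ρ : ℝ)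
    (happ : ∀ L : ℕ, ∃ Ψ : Sq b → ℂ, StronglyMeasurable[past b L] Ψ ∧ (∀ y, ‖Ψ y‖ ≤ 1) ∧
      ∀ y, ‖Φ y - Ψ y‖ ≤ C * ρ ^ L)
    (c : ℕ → Sq b → ℂ) (hc : ∀ n : ℕ, StronglyMeasurable[past b n] (c n))
    (hc1 : ∀ n y, ‖c n y‖ ≤ 1) (m L : ℕ) :
    ‖∫ y, Hn μ Φ c m y * (starRingEnd ℂ) (Hn μ Φ c (m + L) y) ∂μ‖ ≤ 2 * C * ρ ^ L := by
  obtain ⟨Ψ, hΨm, hΨ1, hΨ⟩ := happ L
  set E0 := μ[Φ | past b 0] with hE0
  have hbd := Hn_bound h Φ hΦ hΦ1 c hc1
  have hE0m : StronglyMeasurable[past b 0] E0 := stronglyMeasurable_condExp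
  -- the part measurable for the past of `m + L`
  set A : Sq b → ℂ := fun y => c m y * (Ψ (sh m y) - E0 (sh m y)) with hA
  have hAm : StronglyMeasurable[past b ((m + L : ℕ) : ℤ)] A := by
    have h1 : StronglyMeasurable[past b ((m + L : ℕ) : ℤ)] (c m) :=
      (hc m).mono (past_mono (by push_cast; linarith))
    have h2 : StronglyMeasurable[past b ((m + L : ℕ) : ℤ)] (fun y => Ψ (sh m y)) := by
      have h3 := hΨm.comp_measurable (measurable_sh_past (b := b) m L)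
      have h4 : (L : ℤ) + (m : ℤ) = ((m + L : ℕ) : ℤ) := by push_cast; ring
      rw [h4] at h3
      exact h3
    have h5 : StronglyMeasurable[past b ((m + L : ℕ) : ℤ)] (fun y => E0 (sh m y)) := by
      have h3 := hE0m.comp_measurable (measurable_sh_past (b := b) m 0)
      exact h3.mono (past_mono (by push_cast; linarith))
    exact h1.mul (h2.sub h5)
  have hA2 : ∀ᵐ y ∂μ, ‖A y‖ ≤ 2 := by
    filter_upwards [hbd] with y hy
    rw [hA]
    simp only
    rw [norm_mul]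
    calc ‖c m y‖ * ‖Ψ (sh m y) - E0 (sh m y)‖ ≤ 1 * (1 + 1) := by
          apply mul_le_mul (hc1 m y) _ (norm_nonneg _) zero_le_one
          exact (norm_sub_le _ _).trans (add_le_add (hΨ1 _) (hy m).1)
      _ = 2 := by norm_num
  have hort : ∫ y, A y * (starRingEnd ℂ) (Hn μ Φ c (m + L) y) ∂μ = 0 := by
    have h1 : StronglyMeasurable[past b ((m + L : ℕ) : ℤ)]
        (fun y => (starRingEnd ℂ) (A y) * c (m + L) y) :=
      (Complex.continuous_conj.comp_stronglyMeasurable hAm).mul (hc (m + L))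
    have h2 := ortho h Φ hΦ hΦ1 ((m + L : ℕ) : ℤ) _ h1 (2 * 1) (by
      filter_upwards [hA2] with y hy
      rw [norm_mul, RCLike.norm_conj]
      exact mul_le_mul hy (hc1 _ _) (norm_nonneg _) (by norm_num))
    have h3 : ∫ y, A y * (starRingEnd ℂ) (Hn μ Φ c (m + L) y) ∂μ =
        (starRingEnd ℂ) (∫ y, (starRingEnd ℂ) (A y) * c (m + L) y *
          (Φ (sh ((m + L : ℕ) : ℤ) y) - E0 (sh ((m + L : ℕ) : ℤ) y)) ∂μ) := by
      rw [← integral_conj]
      congr 1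
      funext y
      unfold Hn
      simp only [map_mul, RingHomCompTriple.comp_apply, RingHom.id_apply, Complex.conj_conj]
      ring
    rw [h3, h2, map_zero]
  have hmA : Measurable A := (hAm.mono (past_le _)).measurable
  have hmH : ∀ k, Measurable (Hn μ Φ c k) := Hn_meas Φ hΦ c hc
  have hmHc : Measurable fun y => (starRingEnd ℂ) (Hn μ Φ c (m + L) y) :=
    Complex.continuous_conj.measurable.comp (hmH (m + L))
  have i1 : Integrable (fun y => Hn μ Φ c m y * (starRingEnd ℂ) (Hn μ Φ c (m + L) y)) μ :=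
    Integrable.of_bound ((hmH m).mul hmHc).aestronglyMeasurable (2 * 2) (by
      filter_upwards [hbd] with y hy
      rw [norm_mul, RCLike.norm_conj]
      exact mul_le_mul (hy m).2 (hy (m + L)).2 (norm_nonneg _) (by norm_num))
  have i2 : Integrable (fun y => A y * (starRingEnd ℂ) (Hn μ Φ c (m + L) y)) μ :=
    Integrable.of_bound (hmA.mul hmHc).aestronglyMeasurable (2 * 2) (by
      filter_upwards [hbd, hA2] with y hy hy2
      rw [norm_mul, RCLike.norm_conj]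
      exact mul_le_mul hy2 (hy (m + L)).2 (norm_nonneg _) (by norm_num))
  have e1 : ∫ y, Hn μ Φ c m y * (starRingEnd ℂ) (Hn μ Φ c (m + L) y) ∂μ =
      ∫ y, (Hn μ Φ c m y * (starRingEnd ℂ) (Hn μ Φ c (m + L) y) -
        A y * (starRingEnd ℂ) (Hn μ Φ c (m + L) y)) ∂μ := by
    rw [integral_sub i1 i2, hort, sub_zero]
  rw [e1]
  have h9 : ∀ᵐ y ∂μ, ‖Hn μ Φ c m y * (starRingEnd ℂ) (Hn μ Φ c (m + L) y) -
        A y * (starRingEnd ℂ) (Hn μ Φ c (m + L) y)‖ ≤ 2 * C * ρ ^ L := by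
    filter_upwards [hbd] with y hy
    have e2 : Hn μ Φ c m y * (starRingEnd ℂ) (Hn μ Φ c (m + L) y) -
        A y * (starRingEnd ℂ) (Hn μ Φ c (m + L) y) =
        c m y * (Φ (sh m y) - Ψ (sh m y)) * (starRingEnd ℂ) (Hn μ Φ c (m + L) y) := by
      rw [hA]
      unfold Hn
      ring
    rw [e2, norm_mul, norm_mul, RCLike.norm_conj]
    have h7 := hΨ (sh m y)
    have h8 : 0 ≤ C * ρ ^ L := (norm_nonneg _).trans h7
    calc ‖c m y‖ * ‖Φ (sh m y) - Ψ (sh m y)‖ * ‖Hn μ Φ c (m + L) y‖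
        ≤ 1 * (C * ρ ^ L) * 2 := by
          apply mul_le_mul (mul_le_mul (hc1 m y) h7 (norm_nonneg _) zero_le_one) (hy _).2
            (norm_nonneg _) (by linarith)
      _ = _ := by ring
  have h10 := norm_integral_le_of_norm_le_const h9
  simpa using h10

/-- second moment -/
lemma second_moment {μ : Measure (Sq b)} [IsProbabilityMeasure μ]
    (h : MeasurePreserving (sh 1) μ μ)
    (Φ : Sq b → ℂ) (hΦ : Measurable Φ) (hΦ1 : ∀ y, ‖Φ y‖ ≤ 1) (C ρ : ℝ) (hρ0 : 0 ≤ ρ)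
    (hρ : ρ < 1)
    (happ : ∀ L : ℕ, ∃ Ψ : Sq b → ℂ, StronglyMeasurable[past b L] Ψ ∧ (∀ y, ‖Ψ y‖ ≤ 1) ∧
      ∀ y, ‖Φ y - Ψ y‖ ≤ C * ρ ^ L)
    (c : ℕ → Sq b → ℂ) (hc : ∀ n : ℕ, StronglyMeasurable[past b n] (c n))
    (hc1 : ∀ n y, ‖c n y‖ ≤ 1) : ∃ K : ℝ, 0 ≤ K ∧ ∀ N : ℕ,
    Integrable (fun y => ‖∑ n ∈ Finset.range N, Hn μ Φ c n y‖ ^ 2) μ ∧
    ∫ y, ‖∑ n ∈ Finset.range N, Hn μ Φ c n y‖ ^ 2 ∂μ ≤ K * N := by
  have hC : 0 ≤ C := by
    obtain ⟨Ψ, _, _, hΨ⟩ := happ 0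
    obtain ⟨y⟩ : Nonempty (Sq b) := by
      by_contra hne
      rw [not_nonempty_iff] at hne
      have h1 : μ Set.univ = 1 := measure_univ
      rw [Set.univ_eq_empty_iff.2 hne, measure_empty] at h1
      exact zero_ne_one h1
    have := (norm_nonneg _).trans (hΨ y)
    simpa using this
  have hbd := Hn_bound h Φ hΦ hΦ1 c hc1
  have hmH : ∀ k, Measurable (Hn μ Φ c k) := Hn_meas Φ hΦ c hc
  -- pair bound
  have hpair : ∀ m n : ℕ, ‖∫ y, Hn μ Φ c m y * (starRingEnd ℂ) (Hn μ Φ c n y) ∂μ‖ ≤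
      2 * C * ρ ^ (n - m) * 1 ∨ n < m := by
    intro m n
    rcases Nat.lt_or_ge n m with hlt | hge
    · right; exact hlt
    · left
      obtain ⟨L, rfl⟩ := Nat.exists_eq_add_of_le hge
      have := corr h Φ hΦ hΦ1 C ρ happ c hc hc1 m L
      rw [Nat.add_sub_cancel_left, mul_one]
      exact this
  have hint : ∀ m n : ℕ, Integrable (fun y => Hn μ Φ c m y * (starRingEnd ℂ) (Hn μ Φ c n y)) μ :=
    fun m n => Integrable.of_bound ((hmH m).mul
      (Complex.continuous_conj.measurable.comp (hmH n))).aestronglyMeasurable (2 * 2) (by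
      filter_upwards [hbd] with y hy
      rw [norm_mul, RCLike.norm_conj]
      exact mul_le_mul (hy m).2 (hy n).2 (norm_nonneg _) (by norm_num))
  have hsum : ∀ N : ℕ, Measurable fun y => ∑ n ∈ Finset.range N, Hn μ Φ c n y := fun N =>
    Finset.measurable_sum _ fun n _ => hmH n
  have hpos : 0 < 1 - ρ := by linarith
  refine ⟨4 * C / (1 - ρ), by positivity, fun N => ⟨?_, ?_⟩⟩
  · refine Integrable.of_bound ((hsum N).norm.pow_const 2).aestronglyMeasurable ((N * 2 : ℝ) ^ 2) ?_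
    filter_upwards [hbd] with y hy
    rw [Real.norm_eq_abs, abs_of_nonneg (by positivity)]
    apply pow_le_pow_left₀ (norm_nonneg _)
    refine (norm_sum_le _ _).trans ((Finset.sum_le_sum fun n _ => (hy n).2).trans ?_)
    simp
  · have e1 : ((∫ y, ‖∑ n ∈ Finset.range N, Hn μ Φ c n y‖ ^ 2 ∂μ : ℝ) : ℂ) =
        ∑ m ∈ Finset.range N, ∑ n ∈ Finset.range N,
          ∫ y, Hn μ Φ c m y * (starRingEnd ℂ) (Hn μ Φ c n y) ∂μ := by
      rw [← integral_complex_ofReal]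
      have e2 : ∀ y, (((‖∑ n ∈ Finset.range N, Hn μ Φ c n y‖ ^ 2 : ℝ)) : ℂ) =
          ∑ m ∈ Finset.range N, ∑ n ∈ Finset.range N,
            Hn μ Φ c m y * (starRingEnd ℂ) (Hn μ Φ c n y) := by
        intro y
        rw [← Finset.sum_mul_sum, ← map_sum, Complex.mul_conj, Complex.normSq_eq_norm_sq]
      calc ∫ y, (((‖∑ n ∈ Finset.range N, Hn μ Φ c n y‖ ^ 2 : ℝ)) : ℂ) ∂μ
          = ∫ y, ∑ m ∈ Finset.range N, ∑ n ∈ Finset.range N,
            Hn μ Φ c m y * (starRingEnd ℂ) (Hn μ Φ c n y) ∂μ := by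
            congr 1; funext y; exact e2 y
        _ = _ := by
            rw [integral_finset_sum _ fun m _ => integrable_finset_sum _ fun n _ => hint m n]
            refine Finset.sum_congr rfl fun m _ => ?_
            rw [integral_finset_sum _ fun n _ => hint m n]
    have e3 : ∫ y, ‖∑ n ∈ Finset.range N, Hn μ Φ c n y‖ ^ 2 ∂μ =
        ‖((∫ y, ‖∑ n ∈ Finset.range N, Hn μ Φ c n y‖ ^ 2 ∂μ : ℝ) : ℂ)‖ := by
      rw [Complex.norm_real, Real.norm_eq_abs, abs_of_nonneg (integral_nonneg fun y => by positivity)]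
    rw [e3, e1]
    have hp2 : ∀ m n : ℕ, ‖∫ y, Hn μ Φ c m y * (starRingEnd ℂ) (Hn μ Φ c n y) ∂μ‖ ≤
        2 * C * ρ ^ (n - m) * (if m ≤ n then 1 else 0) +
          2 * C * ρ ^ (m - n) * (if n ≤ m then 1 else 0) := by
      intro m n
      rcases Nat.lt_or_ge n m with hlt | hge
      · have h1 := (hpair n m).resolve_right (by omega)
        have h2 : ‖∫ y, Hn μ Φ c m y * (starRingEnd ℂ) (Hn μ Φ c n y) ∂μ‖ =
            ‖∫ y, Hn μ Φ c n y * (starRingEnd ℂ) (Hn μ Φ c m y) ∂μ‖ := by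
          rw [← RCLike.norm_conj (∫ y, Hn μ Φ c n y * (starRingEnd ℂ) (Hn μ Φ c m y) ∂μ),
            ← integral_conj]
          congr 2
          funext y
          simp only [map_mul, Complex.conj_conj]
          ring
        rw [h2, if_neg (by omega), if_pos hlt.le]
        linarith
      · have h1 := (hpair m n).resolve_right (by omega)
        rw [if_pos hge]
        have h3 : 0 ≤ 2 * C * ρ ^ (m - n) * (if n ≤ m then (1 : ℝ) else 0) := by positivity
        linarith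
    have hgeom : ∀ (m : ℕ), ∑ n ∈ Finset.range N, 2 * C * ρ ^ (n - m) * (if m ≤ n then (1 : ℝ) else 0) ≤
        2 * C / (1 - ρ) := by
      intro m
      have h1 : ∑ n ∈ Finset.range N, 2 * C * ρ ^ (n - m) * (if m ≤ n then (1 : ℝ) else 0) =
          2 * C * ∑ n ∈ (Finset.range N).filter (fun n => m ≤ n), ρ ^ (n - m) := by
        rw [Finset.sum_filter, Finset.mul_sum]
        refine Finset.sum_congr rfl fun n _ => ?_
        split_ifs <;> ring
      have h2 : ∑ n ∈ (Finset.range N).filter (fun n => m ≤ n), ρ ^ (n - m) ≤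
          ∑ k ∈ Finset.range N, ρ ^ k := by
        have h3 : ∑ n ∈ (Finset.range N).filter (fun n => m ≤ n), ρ ^ (n - m) =
            ∑ k ∈ ((Finset.range N).filter (fun n => m ≤ n)).image (fun n => n - m), ρ ^ k := by
          rw [Finset.sum_image]
          intro x hx y hy hxy
          simp only [Finset.coe_filter, Set.mem_ofPred_eq] at hx hy
          simp only at hxy
          omega
        rw [h3]
        apply Finset.sum_le_sum_of_subset_of_nonneg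
        · intro k hk
          obtain ⟨n, hn, rfl⟩ := Finset.mem_image.1 hk
          have := Finset.mem_range.1 (Finset.mem_filter.1 hn).1
          exact Finset.mem_range.2 (by omega)
        · intro k _ _
          positivity
      have h4 : ∑ k ∈ Finset.range N, ρ ^ k ≤ 1 / (1 - ρ) := by
        rw [one_div, ← tsum_geometric_of_lt_one hρ0 hρ]
        exact (summable_geometric_of_lt_one hρ0 hρ).sum_le_tsum _ (fun k _ => by positivity)
      rw [h1]
      calc 2 * C * ∑ n ∈ (Finset.range N).filter (fun n => m ≤ n), ρ ^ (n - m)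
          ≤ 2 * C * (1 / (1 - ρ)) := mul_le_mul_of_nonneg_left (h2.trans h4) (by positivity)
        _ = _ := by ring
    refine (norm_sum_le _ _).trans ?_
    refine (Finset.sum_le_sum fun m _ => (norm_sum_le _ _).trans
      (Finset.sum_le_sum fun n _ => hp2 m n)).trans ?_
    simp_rw [Finset.sum_add_distrib]
    have h5 : ∑ m ∈ Finset.range N, ∑ n ∈ Finset.range N,
        2 * C * ρ ^ (n - m) * (if m ≤ n then (1 : ℝ) else 0) ≤ N * (2 * C / (1 - ρ)) := by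
      refine (Finset.sum_le_sum fun m _ => hgeom m).trans (le_of_eq ?_)
      simp
    have h6 : ∑ m ∈ Finset.range N, ∑ n ∈ Finset.range N,
        2 * C * ρ ^ (m - n) * (if n ≤ m then (1 : ℝ) else 0) ≤ N * (2 * C / (1 - ρ)) := by
      rw [Finset.sum_comm]
      exact h5
    calc _ ≤ N * (2 * C / (1 - ρ)) + N * (2 * C / (1 - ρ)) := add_le_add h5 h6
      _ = _ := by ring

/-- LLN -/
theorem lln {μ : Measure (Sq b)} [IsProbabilityMeasure μ] (h : MeasurePreserving (sh 1) μ μ)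
    (Φ : Sq b → ℂ) (hΦ : Measurable Φ) (hΦ1 : ∀ y, ‖Φ y‖ ≤ 1) (C ρ : ℝ) (hρ0 : 0 ≤ ρ)
    (hρ : ρ < 1)
    (happ : ∀ L : ℕ, ∃ Ψ : Sq b → ℂ, StronglyMeasurable[past b L] Ψ ∧ (∀ y, ‖Ψ y‖ ≤ 1) ∧
      ∀ y, ‖Φ y - Ψ y‖ ≤ C * ρ ^ L)
    (c : ℕ → Sq b → ℂ) (hc : ∀ n : ℕ, StronglyMeasurable[past b n] (c n))
    (hc1 : ∀ n y, ‖c n y‖ ≤ 1) :
    ∀ᵐ y ∂μ, Tendsto (fun N : ℕ =>
      (∑ n ∈ Finset.range N, c n y * (Φ (sh n y) - (μ[Φ | past b 0]) (sh n y))) / N) atTop (𝓝 0) := by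
  obtain ⟨K, hK, hKN⟩ := second_moment h Φ hΦ hΦ1 C ρ hρ0 hρ happ c hc hc1
  have hbd := Hn_bound h Φ hΦ hΦ1 c hc1
  set g : ℕ → Sq b → ℝ := fun k y =>
    ‖∑ n ∈ Finset.range (k ^ 2), Hn μ Φ c n y‖ ^ 2 / (k : ℝ) ^ 4 with hg
  have hgm : ∀ k, Measurable (g k) := fun k =>
    (((Finset.measurable_sum _ fun n _ => Hn_meas Φ hΦ c hc n).norm.pow_const 2).div_const _)
  have hg0 : ∀ k y, 0 ≤ g k y := fun k y => by positivity
  have hgi : ∀ k, Integrable (g k) μ := fun k => (hKN (k ^ 2)).1.div_const _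
  have hgint : ∀ k : ℕ, ∫ y, g k y ∂μ ≤ K * (1 / (k : ℝ) ^ 2) := by
    intro k
    simp only [hg]
    rw [integral_div]
    rcases Nat.eq_zero_or_pos k with rfl | hk
    · simp
    · have hk0 : (0 : ℝ) < k := by exact_mod_cast hk
      have h1 := (hKN (k ^ 2)).2
      rw [div_le_iff₀ (by positivity)]
      refine h1.trans (le_of_eq ?_)
      push_cast
      field_simp
  have hsumm : Summable fun k : ℕ => K * (1 / (k : ℝ) ^ 2) :=
    (Real.summable_one_div_nat_pow.2 (by norm_num)).mul_left K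
  have hfin : ∫⁻ y, ∑' k, ENNReal.ofReal (g k y) ∂μ ≠ ⊤ := by
    rw [lintegral_tsum fun k => (hgm k).ennreal_ofReal.aemeasurable]
    have h1 : ∀ k, ∫⁻ y, ENNReal.ofReal (g k y) ∂μ ≤ ENNReal.ofReal (K * (1 / (k : ℝ) ^ 2)) := by
      intro k
      rw [← ofReal_integral_eq_lintegral_ofReal (hgi k) (Eventually.of_forall (hg0 k))]
      exact ENNReal.ofReal_le_ofReal (hgint k)
    refine ne_top_of_le_ne_top ?_ (ENNReal.tsum_le_tsum h1)
    rw [← ENNReal.ofReal_tsum_of_nonneg (fun k => by positivity) hsumm]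
    exact ENNReal.ofReal_ne_top
  have hae : ∀ᵐ y ∂μ, ∑' k, ENNReal.ofReal (g k y) < ⊤ :=
    ae_lt_top (Measurable.tsum fun k => (hgm k).ennreal_ofReal) hfin
  filter_upwards [hae, hbd] with y hy hy2
  have h1 : Tendsto (fun k => ENNReal.ofReal (g k y)) atTop (𝓝 0) := by
    have := ENNReal.tendsto_cofinite_zero_of_tsum_ne_top hy.ne
    rwa [Nat.cofinite_eq_atTop] at this
  have h2 : Tendsto (fun k => g k y) atTop (𝓝 0) := by
    have h3 := (ENNReal.tendsto_toReal ENNReal.zero_ne_top).comp h1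
    simp only [ENNReal.toReal_zero] at h3
    refine h3.congr fun k => ?_
    simp only [Function.comp]
    exact ENNReal.toReal_ofReal (hg0 k y)
  have h3 : Tendsto (fun k : ℕ => ‖∑ n ∈ Finset.range (k ^ 2), Hn μ Φ c n y‖ / (k : ℝ) ^ 2) atTop
      (𝓝 0) := by
    have h4 := (Real.continuous_sqrt.tendsto 0).comp h2
    rw [Real.sqrt_zero] at h4
    refine h4.congr fun k => ?_
    simp only [Function.comp, hg]
    have e : ‖∑ n ∈ Finset.range (k ^ 2), Hn μ Φ c n y‖ ^ 2 / (k : ℝ) ^ 4 =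
        (‖∑ n ∈ Finset.range (k ^ 2), Hn μ Φ c n y‖ / (k : ℝ) ^ 2) ^ 2 := by
      rw [div_pow, ← pow_mul]
    rw [e, Real.sqrt_sq (by positivity)]
  exact avg_tendsto (fun n => Hn μ Φ c n y) 2 (fun n => (hy2 n).2) h3

end Pool.Agent.Helper46.KM
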