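import Pool.Agent.Helper46.KM.LLN
import Pool.Graph.R_pool_sql_team_39128cda.Lib.helper9_.Birkhoff

/-! # KM: part AE -/

set_option autoImplicit false

open MeasureTheory Filter Topology

namespace Pool.Agent.Helper46.KM
open Pool.Agent.Helper5.KM

/-- deterministic part of the limit argument -/
lemma det_avg (T : ℕ → ℂ) (hT : ∀ n, ‖T n‖ ≤ 1) (M : ℕ) (u v : ℕ → ℂ)
    (hTuv : ∀ n, T (M + n) = u n + v n)
    (hu : Tendsto (fun N : ℕ => (∑ n ∈ Finset.range N, u n) / (N : ℂ)) atTop (𝓝 0))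
    (w : ℕ → ℝ) (hvw : ∀ n, ‖v n‖ ≤ w n) (g : ℝ)
    (hw : Tendsto (fun N : ℕ => (∑ n ∈ Finset.range N, w n) / (N : ℝ)) atTop (𝓝 g)) (ε : ℝ)
    (hg : g < ε) : ∀ᶠ N : ℕ in atTop, ‖(∑ n ∈ Finset.range N, T n) / (N : ℂ)‖ < ε := by
  have h1 : Tendsto (fun N : ℕ => ‖(∑ n ∈ Finset.range N, u n) / (N : ℂ)‖ +
      (∑ n ∈ Finset.range N, w n) / (N : ℝ) + 2 * M * (1 / (N : ℝ))) atTop
      (𝓝 (‖(0 : ℂ)‖ + g + 2 * M * 0)) :=
    (hu.norm.add hw).add (tendsto_one_div_atTop_nhds_zero_nat.const_mul _)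
  rw [norm_zero, zero_add, mul_zero, add_zero] at h1
  filter_upwards [h1.eventually_lt_const hg, eventually_ge_atTop 1] with N hN hN1
  refine lt_of_le_of_lt ?_ hN
  have hN0 : (0 : ℝ) < N := by exact_mod_cast hN1
  have e1 : ∑ n ∈ Finset.range N, T n = ∑ n ∈ Finset.range N, T (M + n) +
      ∑ n ∈ Finset.range M, T n - ∑ n ∈ Finset.range M, T (N + n) := by
    have a1 := Finset.sum_range_add T M N
    have a2 := Finset.sum_range_add T N M
    rw [add_comm N M] at a2
    rw [a1] at a2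
    linear_combination -a2
  have e2 : ‖∑ n ∈ Finset.range M, T n‖ ≤ M := by
    refine (norm_sum_le _ _).trans ((Finset.sum_le_sum fun n _ => hT n).trans ?_)
    simp
  have e3 : ‖∑ n ∈ Finset.range M, T (N + n)‖ ≤ M := by
    refine (norm_sum_le _ _).trans ((Finset.sum_le_sum fun n _ => hT _).trans ?_)
    simp
  have e4 : ‖∑ n ∈ Finset.range N, T (M + n)‖ ≤ ‖∑ n ∈ Finset.range N, u n‖ +
      ∑ n ∈ Finset.range N, w n := by
    simp_rw [hTuv]
    rw [Finset.sum_add_distrib]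
    refine (norm_add_le _ _).trans (add_le_add le_rfl ?_)
    exact (norm_sum_le _ _).trans (Finset.sum_le_sum fun n _ => hvw n)
  have e5 : ‖∑ n ∈ Finset.range N, T n‖ ≤ ‖∑ n ∈ Finset.range N, u n‖ +
      ∑ n ∈ Finset.range N, w n + 2 * M := by
    rw [e1]
    refine (norm_sub_le _ _).trans ?_
    have := norm_add_le (∑ n ∈ Finset.range N, T (M + n)) (∑ n ∈ Finset.range M, T n)
    linarith
  rw [norm_div, norm_div]
  have e6 : ‖(N : ℂ)‖ = N := by simp
  rw [e6]
  calc ‖∑ n ∈ Finset.range N, T n‖ / N ≤ (‖∑ n ∈ Finset.range N, u n‖ +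
      ∑ n ∈ Finset.range N, w n + 2 * M) / N := div_le_div_of_nonneg_right e5 hN0.le
    _ = _ := by ring

variable {b : ℕ}

/-- the observable -/
noncomputable def PhiM (X : ℝ) (L M : ℕ) (G : (Fin L → Fin b) → ℂ) (y : Sq b) : ℂ :=
  e ((b : ℝ) ^ M * X * val y) * G (blk (M : ℤ) L y)

lemma PhiM_meas (X : ℝ) (L M : ℕ) (G : (Fin L → Fin b) → ℂ) : Measurable (PhiM X L M G) := by
  have h1 : Measurable G := measurable_of_finite _
  exact (measurable_e.comp (measurable_val.const_mul _)).mul (h1.comp (measurable_blk _ _))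

lemma PhiM_le (X : ℝ) (L M : ℕ) (G : (Fin L → Fin b) → ℂ) (hG : ∀ w, ‖G w‖ ≤ 1) (y : Sq b) :
    ‖PhiM X L M G y‖ ≤ 1 := by
  unfold PhiM
  rw [norm_mul, norm_e, one_mul]
  exact hG _

/-- approximation by functions of finitely many digits -/
lemma PhiM_app (hb : 2 ≤ b) (X : ℝ) (L M : ℕ) (G : (Fin L → Fin b) → ℂ) (hG : ∀ w, ‖G w‖ ≤ 1)
    (L' : ℕ) : ∃ Ψ : Sq b → ℂ, StronglyMeasurable[past b L'] Ψ ∧ (∀ y, ‖Ψ y‖ ≤ 1) ∧
      ∀ y, ‖PhiM X L M G y - Ψ y‖ ≤
        (2 * Real.pi * ((b : ℝ) ^ M * |X|) + (b : ℝ) ^ (M + L)) * (1 / (b : ℝ)) ^ L' := by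
  have hb0 : (0 : ℝ) < b := by exact_mod_cast (by omega : 0 < b)
  have hb1 : (1 : ℝ) ≤ b := by exact_mod_cast (by omega : 1 ≤ b)
  have hpi := Real.pi_pos
  rcases Nat.lt_or_ge L' (M + L) with hlt | hge
  · refine ⟨fun _ => 0, stronglyMeasurable_const, fun y => by simp, fun y => ?_⟩
    rw [sub_zero]
    refine (PhiM_le X L M G hG y).trans ?_
    have h1 : (b : ℝ) ^ L' ≤ (b : ℝ) ^ (M + L) := pow_le_pow_right₀ hb1 hlt.le
    have h2 : 1 ≤ (b : ℝ) ^ (M + L) * (1 / (b : ℝ)) ^ L' := by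
      rw [one_div, inv_pow, ← div_eq_mul_inv, one_le_div (by positivity)]
      exact h1
    have h3 : 0 ≤ 2 * Real.pi * ((b : ℝ) ^ M * |X|) * (1 / (b : ℝ)) ^ L' := by positivity
    nlinarith
  · refine ⟨fun y => e ((b : ℝ) ^ M * X * ((Bk L' y : ℝ) / (b : ℝ) ^ L')) * G (blk (M : ℤ) L y),
      ?_, ?_, ?_⟩
    · have h1 : Measurable[past b L'] (fun y : Sq b =>
          e ((b : ℝ) ^ M * X * ((Bk L' y : ℝ) / (b : ℝ) ^ L')) * G (blk (M : ℤ) L y)) := by
        have h2 : Measurable G := measurable_of_finite _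
        have h3 : Measurable[past b L'] (fun y : Sq b => G (blk (M : ℤ) L y)) :=
          h2.comp (measurable_blk_past (M : ℤ) L (L' : ℤ) (by exact_mod_cast hge))
        have h4 : Measurable[past b L'] (fun y : Sq b =>
            e ((b : ℝ) ^ M * X * ((Bk L' y : ℝ) / (b : ℝ) ^ L'))) :=
          measurable_e.comp (((measurable_Bk L').div_const _).const_mul _)
        exact h4.mul h3
      exact h1.stronglyMeasurable
    · intro y
      rw [norm_mul, norm_e, one_mul]
      exact hG _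
    · intro y
      unfold PhiM
      rw [← sub_mul, norm_mul]
      have h1 := norm_e_sub_le ((b : ℝ) ^ M * X * val y)
        ((b : ℝ) ^ M * X * ((Bk L' y : ℝ) / (b : ℝ) ^ L'))
      have h2 : (b : ℝ) ^ M * X * val y - (b : ℝ) ^ M * X * ((Bk L' y : ℝ) / (b : ℝ) ^ L') =
          (b : ℝ) ^ M * X * (val (sh L' y) * (1 / (b : ℝ)) ^ L') := by
        have h3 := pow_mul_val hb L' y
        have h4 : val y = ((Bk L' y : ℝ) + val (sh L' y)) / (b : ℝ) ^ L' := by
          rw [← h3]; field_simp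
        rw [h4, one_div, inv_pow]
        ring
      rw [h2, abs_mul, abs_mul, abs_mul, abs_of_nonneg (val_nonneg _),
        abs_of_pos (by positivity : (0 : ℝ) < (b : ℝ) ^ M),
        abs_of_pos (by positivity : (0 : ℝ) < (1 / (b : ℝ)) ^ L')] at h1
      have h5 : 0 ≤ (b : ℝ) ^ (M + L) * (1 / (b : ℝ)) ^ L' := by positivity
      calc ‖e ((b : ℝ) ^ M * X * val y) - e ((b : ℝ) ^ M * X * ((Bk L' y : ℝ) / (b : ℝ) ^ L'))‖ *
            ‖G (blk (M : ℤ) L y)‖
          ≤ (2 * Real.pi * ((b : ℝ) ^ M * |X| * (val (sh L' y) * (1 / (b : ℝ)) ^ L'))) * 1 := by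
            apply mul_le_mul h1 (hG _) (norm_nonneg _)
            have := val_nonneg (sh (L' : ℤ) y)
            positivity
        _ ≤ (2 * Real.pi * ((b : ℝ) ^ M * |X| * (1 * (1 / (b : ℝ)) ^ L'))) * 1 := by
            have := val_le_one hb (sh (L' : ℤ) y)
            gcongr
        _ ≤ _ := by
            have e9 : (2 * Real.pi * ((b : ℝ) ^ M * |X|) + (b : ℝ) ^ (M + L)) * (1 / (b : ℝ)) ^ L' =
              2 * Real.pi * ((b : ℝ) ^ M * |X| * (1 * (1 / (b : ℝ)) ^ L')) * 1 +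
              (b : ℝ) ^ (M + L) * (1 / (b : ℝ)) ^ L' := by ring
            linarith

/-- the conditional expectations of the observables -/
lemma condExp_PhiM (hb : 2 ≤ b) {μ : Measure (Sq b)} [IsProbabilityMeasure μ]
    (h : MeasurePreserving (sh 1) μ μ)
    (hshc : ∀ (f : Sq b → ℂ), Integrable f μ → ∀ n k : ℤ,
      μ[fun y => f (sh k y) | past b (n + k)] =ᵐ[μ] fun y => (μ[f | past b n]) (sh k y))
    (X : ℝ) (L : ℕ) (G : (Fin L → Fin b) → ℂ) (hG : ∀ w, ‖G w‖ ≤ 1) :
    ∃ q : Sq b → ℂ, StronglyMeasurable[past b 0] q ∧ (∀ y, ‖q y‖ ≤ 1) ∧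
      ∀ M : ℕ, μ[PhiM X L M G | past b 0] =ᵐ[μ] Qf μ X q M := by
  set F : Sq b → ℂ := PhiM X L 0 G with hF
  have hFm := PhiM_meas X L 0 G
  have hFi : Integrable F μ := Integrable.of_bound hFm.aestronglyMeasurable 1
    (Eventually.of_forall (PhiM_le X L 0 G hG))
  set q0 := μ[F | past b 0] with hq0
  have hq0m : StronglyMeasurable[past b 0] q0 := stronglyMeasurable_condExp
  set S : Set (Sq b) := {y | ‖q0 y‖ ≤ 1} with hS
  have hSm : MeasurableSet[past b 0] S := hq0m.norm.measurable measurableSet_Iic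
  set q := S.indicator q0 with hq
  have hqm : StronglyMeasurable[past b 0] q := hq0m.indicator hSm
  have hq1 : ∀ y, ‖q y‖ ≤ 1 := by
    intro y
    rw [hq]
    by_cases hy : y ∈ S
    · rw [Set.indicator_of_mem hy]; exact hy
    · rw [Set.indicator_of_notMem hy]; simp
  have hqq : ∀ᵐ y ∂μ, q0 y = q y := by
    filter_upwards [ae_norm_condExp_le F hFi (PhiM_le X L 0 G hG)] with y hy
    rw [hq, Set.indicator_of_mem (show y ∈ S from hy)]
  refine ⟨q, hqm, hq1, fun M => ?_⟩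
  have hPm := PhiM_meas X L M G
  have hPi : Integrable (PhiM X L M G) μ := Integrable.of_bound hPm.aestronglyMeasurable 1
    (Eventually.of_forall (PhiM_le X L M G hG))
  have e1 : PhiM X L M G = fun y => e (X * Bk M y) * F (sh M y) := by
    funext y
    unfold F PhiM
    rw [← mul_assoc, ← e_add, blk_sh]
    congr 2
    · have := pow_mul_val hb M y
      rw [pow_zero, one_mul]
      calc (b : ℝ) ^ M * X * val y = X * ((b : ℝ) ^ M * val y) := by ring
        _ = _ := by rw [this]; ring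
    · congr 1
      simp
  have hFsi : Integrable (fun y => F (sh M y)) μ := (mp_sh h M).integrable_comp_of_integrable hFi
  have hem : StronglyMeasurable[past b M] (fun y : Sq b => e (X * Bk M y)) := by
    have : Measurable[past b M] (fun y : Sq b => e (X * Bk M y)) :=
      measurable_e.comp ((measurable_Bk M).const_mul _)
    exact this.stronglyMeasurable
  have e2 := condExp_bilin_of_stronglyMeasurable_left (μ := μ) (ContinuousLinearMap.mul ℝ ℂ) hem
    (g := fun y => F (sh M y)) (by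
      simp only [ContinuousLinearMap.mul_apply']
      rw [← e1]
      exact hPi) hFsi
  simp only [ContinuousLinearMap.mul_apply'] at e2
  rw [← e1] at e2
  have e3 := hshc F hFi 0 M
  rw [zero_add] at e3
  have e4 : ∀ᵐ y ∂μ, q0 (sh M y) = q (sh M y) := (mp_sh h M).quasiMeasurePreserving.ae hqq
  have e5 : μ[PhiM X L M G | past b M] =ᵐ[μ] fun y => e (X * Bk M y) * q (sh M y) := by
    filter_upwards [e2, e3, e4] with y h2 h3 h4
    rw [h2, h3, ← h4]
  have e6 : μ[μ[PhiM X L M G | past b M] | past b 0] =ᵐ[μ] μ[PhiM X L M G | past b 0] :=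
    condExp_condExp_of_le (past_mono (by positivity)) (past_le _)
  exact e6.symm.trans (condExp_congr_ae e5)

/-- AE -/
theorem ae_weighted (hb : 2 ≤ b) {μ : Measure (Sq b)} [IsProbabilityMeasure μ] (h : KProc b μ)
    (hshc : ∀ (f : Sq b → ℂ), Integrable f μ → ∀ n k : ℤ,
      μ[fun y => f (sh k y) | past b (n + k)] =ᵐ[μ] fun y => (μ[f | past b n]) (sh k y))
    (X : ℝ)
    (hzero : ∀ (q : Sq b → ℂ), StronglyMeasurable[past b 0] q → (∀ y, ‖q y‖ ≤ 1) →
      Tendsto (fun l : ℕ => ∫ y, ‖Qf μ X q l y‖ ∂μ) atTop (𝓝 0))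
    (L : ℕ) (G : (Fin L → Fin b) → ℂ) (hG : ∀ w, ‖G w‖ ≤ 1)
    (a : ℕ → ℂ) (ha : ∀ n, ‖a n‖ ≤ 1) :
    ∀ᵐ y ∂μ, Tendsto (fun N : ℕ =>
      (∑ n ∈ Finset.range N, a n * e ((b : ℝ) ^ n * X * val y) * G (blk n L y)) / N)
      atTop (𝓝 0) := by
  have hst := h.stat
  obtain ⟨q, hqm, hq1, hq⟩ := condExp_PhiM hb hst hshc X L G hG
  have hz := hzero q hqm hq1
  -- the limits of the averages of `|E[Φ_M | P]|`
  set E : ℕ → Sq b → ℂ := fun M => μ[PhiM X L M G | past b 0] with hE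
  have hEi : ∀ M, Integrable (fun y => ‖E M y‖) μ := fun M => integrable_condExp.norm
  set g : ℕ → Sq b → ℝ := fun M => μ[fun y => ‖E M y‖ | MeasurableSpace.invariants (sh 1)] with hg
  have hbirk : ∀ M, ∀ᵐ y ∂μ, Tendsto (fun n => birkhoffAverage ℝ (sh 1) (fun y => ‖E M y‖) n y)
      atTop (𝓝 (g M y)) := fun M =>
    Pool.Agent.Lib.helper9.Birkhoff.birkhoff hst (hEi M)
  have hgint : ∀ M, ∫ y, g M y ∂μ = ∫ y, ‖Qf μ X q M y‖ ∂μ := by
    intro M
    rw [hg]
    simp only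
    rw [integral_condExp (MeasurableSpace.invariants_le _)]
    refine integral_congr_ae ?_
    filter_upwards [hq M] with y hy
    rw [hE]
    simp only
    rw [hy]
  have hg0 : ∀ M, ∀ᵐ y ∂μ, 0 ≤ g M y := fun M =>
    condExp_nonneg (Eventually.of_forall fun y => norm_nonneg _)
  have hgi : ∀ M, Integrable (g M) μ := fun M => integrable_condExp
  have hinf : ∀ᵐ y ∂μ, ∀ ε : ℝ, 0 < ε → ∃ M, g M y < ε := by
    have h1 : ∫⁻ y, ⨅ M, ENNReal.ofReal (g M y) ∂μ = 0 := by
      have h2 : ∀ M, ∫⁻ y, ⨅ M, ENNReal.ofReal (g M y) ∂μ ≤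
          ENNReal.ofReal (∫ y, ‖Qf μ X q M y‖ ∂μ) := by
        intro M
        rw [← hgint M, ofReal_integral_eq_lintegral_ofReal (hgi M) (hg0 M)]
        exact lintegral_mono fun y => iInf_le _ M
      have h3 : Tendsto (fun M => ENNReal.ofReal (∫ y, ‖Qf μ X q M y‖ ∂μ)) atTop
          (𝓝 (ENNReal.ofReal 0)) := ENNReal.tendsto_ofReal hz
      rw [ENNReal.ofReal_zero] at h3
      exact le_antisymm (ge_of_tendsto' h3 h2) bot_le
    have hm : AEMeasurable (fun y => ⨅ M, ENNReal.ofReal (g M y)) μ :=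
      AEMeasurable.iInf fun M => (hgi M).aestronglyMeasurable.aemeasurable.ennreal_ofReal
    rw [lintegral_eq_zero_iff' hm] at h1
    filter_upwards [h1] with y hy ε hε
    by_contra hne
    push Not at hne
    have h4 : ENNReal.ofReal ε ≤ ⨅ M, ENNReal.ofReal (g M y) :=
      le_iInf fun M => ENNReal.ofReal_le_ofReal (hne M)
    rw [hy] at h4
    simp only [Pi.zero_apply, nonpos_iff_eq_zero, ENNReal.ofReal_eq_zero] at h4
    linarith
  -- the law of large numbers for every `M`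
  set c : ℕ → ℕ → Sq b → ℂ := fun M n y => a (M + n) * e ((b : ℝ) ^ M * X * Bk n y) with hc
  have hb0 : (0 : ℝ) < b := by exact_mod_cast (by omega : 0 < b)
  have hb2 : (2 : ℝ) ≤ b := by exact_mod_cast hb
  have hlln : ∀ M : ℕ, ∀ᵐ y ∂μ, Tendsto (fun N : ℕ =>
      (∑ n ∈ Finset.range N, c M n y * (PhiM X L M G (sh n y) - E M (sh n y))) / (N : ℂ))
      atTop (𝓝 0) := by
    intro M
    refine lln hst (PhiM X L M G) (PhiM_meas X L M G) (PhiM_le X L M G hG) _ (1 / (b : ℝ))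
      (by positivity) (by rw [div_lt_one hb0]; linarith) (PhiM_app hb X L M G hG) (c M) ?_ ?_
    · intro n
      have : Measurable[past b n] (fun y : Sq b => e ((b : ℝ) ^ M * X * Bk n y)) :=
        measurable_e.comp ((measurable_Bk n).const_mul _)
      exact this.stronglyMeasurable.const_mul _
    · intro n y
      rw [hc]
      simp only
      rw [norm_mul, norm_e, mul_one]
      exact ha _
  have hall1 : ∀ᵐ y ∂μ, ∀ M : ℕ, Tendsto (fun N : ℕ =>
      (∑ n ∈ Finset.range N, c M n y * (PhiM X L M G (sh n y) - E M (sh n y))) / (N : ℂ))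
      atTop (𝓝 0) := ae_all_iff.2 hlln
  have hall2 : ∀ᵐ y ∂μ, ∀ M, Tendsto (fun n => birkhoffAverage ℝ (sh 1) (fun y => ‖E M y‖) n y)
      atTop (𝓝 (g M y)) := ae_all_iff.2 hbirk
  filter_upwards [hinf, hall1, hall2] with y hy1 hy2 hy3
  rw [Metric.tendsto_atTop']
  intro ε hε
  obtain ⟨M, hM⟩ := hy1 ε hε
  have hiter : ∀ n : ℕ, (sh 1 : Sq b → Sq b)^[n] y = sh n y := by
    intro n
    induction n with
    | zero => simp [sh_zero]
    | succ n ih =>
      rw [Function.iterate_succ_apply', ih, sh_sh]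
      congr 1
      push_cast
      ring
  have hfin := det_avg (fun n => a n * e ((b : ℝ) ^ n * X * val y) * G (blk n L y))
    (fun n => by
      rw [norm_mul, norm_mul, norm_e, mul_one]
      exact mul_le_one₀ (ha n) (norm_nonneg _) (hG _)) M
    (fun n => c M n y * (PhiM X L M G (sh n y) - E M (sh n y)))
    (fun n => c M n y * E M (sh n y)) (fun n => by
      have e1 : c M n y * (PhiM X L M G (sh n y) - E M (sh n y)) + c M n y * E M (sh n y) =
          c M n y * PhiM X L M G (sh n y) := by ring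
      rw [e1]
      simp only [hc, PhiM]
      rw [blk_sh]
      have e2 : (b : ℝ) ^ (M + n) * X * val y =
          (b : ℝ) ^ M * X * Bk n y + (b : ℝ) ^ M * X * val (sh n y) := by
        have := pow_mul_val hb n y
        calc (b : ℝ) ^ (M + n) * X * val y = (b : ℝ) ^ M * X * ((b : ℝ) ^ n * val y) := by
              rw [pow_add]; ring
          _ = _ := by rw [this]; ring
      rw [e2, e_add]
      push_cast
      ring) (hy2 M) (fun n => ‖E M (sh n y)‖) (fun n => by
        rw [norm_mul]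
        have : ‖c M n y‖ ≤ 1 := by
          rw [hc]
          simp only
          rw [norm_mul, norm_e, mul_one]
          exact ha _
        exact mul_le_of_le_one_left (norm_nonneg _) this) (g M y) (by
        refine (hy3 M).congr fun N => ?_
        unfold birkhoffAverage birkhoffSum
        rw [smul_eq_mul, inv_mul_eq_div]
        congr 1
        refine Finset.sum_congr rfl fun n _ => ?_
        rw [hiter]) ε hM
  obtain ⟨N0, hN0⟩ := eventually_atTop.1 hfin
  refine ⟨N0, fun N hN => ?_⟩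
  rw [dist_zero_right]
  exact hN0 N hN.le

end Pool.Agent.Helper46.KM
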